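import Mathlib

set_option linter.unusedVariables false

/-! Project WA, piece WA-14: successive choice with a potential function. -/

set_option autoImplicit false

namespace Pool.Agent.Helper94.WA

open Finset

/-- the number of hits before `i` -/
def hits {J : Type} (B : J → ℕ → (ℕ → ℕ) → Finset ℕ) (i : ℕ) (j : J) (f : ℕ → ℕ) : ℕ :=
  ∑ i' ∈ range i, if f i' ∈ B j i' f then 1 else 0

lemma hits_congr {J : Type} {B : J → ℕ → (ℕ → ℕ) → Finset ℕ} {k : ℕ} {s : Finset J}
    (hloc : ∀ j ∈ s, ∀ i < k, ∀ f g : ℕ → ℕ, (∀ i' < i, f i' = g i') → B j i f = B j i g)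
    {i : ℕ} (hik : i ≤ k) {j : J} (hj : j ∈ s) {f g : ℕ → ℕ} (h : ∀ i' < i, f i' = g i') :
    hits B i j f = hits B i j g := by
  apply Finset.sum_congr rfl
  intro i' hi'
  have h1 : i' < i := Finset.mem_range.1 hi'
  rw [h i' h1, hloc j hj i' (by omega) f g (fun i'' h2 => h i'' (by omega))]

/-- WA-14 (successive choice with a potential function) -/
theorem adaptive {k : ℕ} (I : ℕ → Finset ℕ) (hI : ∀ i < k, (I i).Nonempty) {J : Type}
    (s : Finset J) (B : J → ℕ → (ℕ → ℕ) → Finset ℕ)
    (hB : ∀ j ∈ s, ∀ i < k, ∀ f, B j i f ⊆ I i)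
    (hloc : ∀ j ∈ s, ∀ i < k, ∀ f g : ℕ → ℕ, (∀ i' < i, f i' = g i') → B j i f = B j i g)
    (b : J → ℕ → ℝ) (hb : ∀ j ∈ s, ∀ i < k, ∀ f : ℕ → ℕ, (∀ i' < i, f i' ∈ I i') →
      ((B j i f).card : ℝ) ≤ b j i * (I i).card)
    (hb0 : ∀ j ∈ s, ∀ i < k, 0 ≤ b j i) (A : ℝ) (hA : 1 ≤ A) (y : ℕ)
    (hsum : ∑ j ∈ s, Real.exp (A * ∑ i ∈ range k, b j i) / A ^ y < 1) :
    ∃ f : ℕ → ℕ, (∀ i < k, f i ∈ I i) ∧
      ∀ j ∈ s, ((range k).filter (fun i => f i ∈ B j i f)).card < y := by
  have hA0 : 0 < A := by linarith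
  have hAy : 0 < A ^ y := pow_pos hA0 y
  have hW : ∀ j ∈ s, ∀ i, 0 ≤ ∏ i' ∈ Ico i k, (1 + A * b j i') := by
    intro j hj i
    apply Finset.prod_nonneg
    intro i' hi'
    have := hb0 j hj i' (Finset.mem_Ico.1 hi').2
    positivity
  -- the main induction
  have key : ∀ i ≤ k, ∃ f : ℕ → ℕ, (∀ i' < i, f i' ∈ I i') ∧
      ∑ j ∈ s, A ^ (hits B i j f) * (∏ i' ∈ Ico i k, (1 + A * b j i')) / A ^ y < 1 := by
    intro i
    induction i with
    | zero =>
      intro _
      refine ⟨fun _ => 0, fun i' hi' => absurd hi' (Nat.not_lt_zero _), lt_of_le_of_lt ?_ hsum⟩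
      apply Finset.sum_le_sum
      intro j hj
      apply div_le_div_of_nonneg_right _ hAy.le
      have h0 : hits B 0 j (fun _ => 0) = 0 := rfl
      rw [h0, pow_zero, one_mul, Finset.mul_sum, Real.exp_sum, ← Finset.range_eq_Ico]
      apply Finset.prod_le_prod
      · intro i' hi'
        have := hb0 j hj i' (Finset.mem_range.1 hi')
        positivity
      · intro i' _
        rw [add_comm]
        exact Real.add_one_le_exp _
    | succ i ih =>
      intro hik
      obtain ⟨f, hf, hΦ⟩ := ih (by omega)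
      have hik' : i < k := by omega
      have hne := hI i hik'
      have hcard : (0 : ℝ) < (I i).card := by exact_mod_cast hne.card_pos
      set F : ℕ → (ℕ → ℕ) := fun v => Function.update f i v with hF
      have hFlt : ∀ v, ∀ i' < i, F v i' = f i' := fun v i' hi' => by
        simp only [hF]
        exact Function.update_of_ne (by omega) _ _
      have hhits : ∀ j ∈ s, ∀ v, hits B (i + 1) j (F v) =
          hits B i j f + if v ∈ B j i f then 1 else 0 := by
        intro j hj v
        have h1 : hits B (i + 1) j (F v) =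
            hits B i j (F v) + if F v i ∈ B j i (F v) then 1 else 0 := by
          unfold hits
          rw [Finset.sum_range_succ]
        rw [h1, hits_congr hloc (le_of_lt hik') hj (hFlt v),
          hloc j hj i hik' (F v) f (hFlt v)]
        simp only [hF, Function.update_self]
      have hsumB : ∀ j ∈ s, ∑ v ∈ I i, A ^ (if v ∈ B j i f then 1 else 0) ≤
          (I i).card * (1 + A * b j i) := by
        intro j hj
        have h1 : ∀ v ∈ I i, A ^ (if v ∈ B j i f then 1 else 0) =
            1 + (if v ∈ B j i f then (A - 1) else 0) := by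
          intro v _
          split_ifs <;> simp
        rw [Finset.sum_congr rfl h1, Finset.sum_add_distrib, ← Finset.sum_filter]
        have h2 : (I i).filter (fun v => v ∈ B j i f) ⊆ B j i f := fun v hv =>
          (Finset.mem_filter.1 hv).2
        have h3 : (((I i).filter (fun v => v ∈ B j i f)).card : ℝ) ≤ b j i * (I i).card :=
          le_trans (by exact_mod_cast Finset.card_le_card h2) (hb j hj i hik' f hf)
        simp only [Finset.sum_const, nsmul_eq_mul, mul_one]
        have h4 : 0 ≤ b j i * (I i).card := mul_nonneg (hb0 j hj i hik') hcard.le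
        nlinarith
      have havg : ∑ v ∈ I i, (∑ j ∈ s, A ^ (hits B (i + 1) j (F v)) *
          (∏ i' ∈ Ico (i + 1) k, (1 + A * b j i')) / A ^ y) ≤
          ∑ v ∈ I i, (∑ j ∈ s, A ^ (hits B i j f) * (∏ i' ∈ Ico i k, (1 + A * b j i')) / A ^ y) := by
        rw [Finset.sum_comm]
        have hr : ∑ v ∈ I i, (∑ j ∈ s, A ^ (hits B i j f) *
            (∏ i' ∈ Ico i k, (1 + A * b j i')) / A ^ y) =
            ∑ j ∈ s, (I i).card * (A ^ (hits B i j f) *
            (∏ i' ∈ Ico i k, (1 + A * b j i')) / A ^ y) := by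
          rw [Finset.sum_const, nsmul_eq_mul, Finset.mul_sum]
        rw [hr]
        apply Finset.sum_le_sum
        intro j hj
        have e1 : ∀ v ∈ I i, A ^ (hits B (i + 1) j (F v)) *
            (∏ i' ∈ Ico (i + 1) k, (1 + A * b j i')) / A ^ y =
            (A ^ (hits B i j f) * (∏ i' ∈ Ico (i + 1) k, (1 + A * b j i')) / A ^ y) *
              A ^ (if v ∈ B j i f then 1 else 0) := by
          intro v _
          rw [hhits j hj v, pow_add]; ring
        rw [Finset.sum_congr rfl e1, ← Finset.mul_sum,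
          Finset.prod_eq_prod_Ico_succ_bot hik' (fun i' => 1 + A * b j i')]
        have hnn : 0 ≤ A ^ (hits B i j f) * (∏ i' ∈ Ico (i + 1) k, (1 + A * b j i')) / A ^ y := by
          have := hW j hj (i + 1)
          positivity
        refine (mul_le_mul_of_nonneg_left (hsumB j hj) hnn).trans (le_of_eq ?_)
        ring
      obtain ⟨v, hv, hle⟩ := Finset.exists_le_of_sum_le hne havg
      refine ⟨F v, ?_, lt_of_le_of_lt hle hΦ⟩
      intro i' hi'
      rcases Nat.lt_succ_iff_lt_or_eq.1 hi' with h1 | h1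
      · rw [hFlt v i' h1]; exact hf i' h1
      · subst h1
        simp only [hF, Function.update_self]; exact hv
  obtain ⟨f, hf, hΦ⟩ := key k le_rfl
  refine ⟨f, hf, fun j hj => ?_⟩
  by_contra hcon
  rw [not_lt] at hcon
  have hc : ((range k).filter (fun i => f i ∈ B j i f)).card = hits B k j f :=
    Finset.card_filter _ _
  rw [hc] at hcon
  simp only [Finset.Ico_self, Finset.prod_empty, mul_one] at hΦ
  have h1 : A ^ (hits B k j f) / A ^ y ≤ ∑ j ∈ s, A ^ (hits B k j f) / A ^ y :=
    Finset.single_le_sum (f := fun j => A ^ (hits B k j f) / A ^ y)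
      (fun j _ => by positivity) hj
  have h2 : 1 ≤ A ^ (hits B k j f) / A ^ y := by
    rw [one_le_div hAy]
    exact pow_le_pow_right₀ hA hcon
  linarith

end Pool.Agent.Helper94.WA
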